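import Mathlib

set_option autoImplicit false

/-!
Bergman's theorem that every length function on the symmetric group of an infinite set is bounded.
-/

namespace Pool.Agent.Helper7.BergmanSym

open Equiv Function

variable {X : Type}

/-- an injection whose range misses the range of another injection -/
def Moi (u : X ↪ X) : Prop := ∃ v : X ↪ X, ∀ x y, u x ≠ v y

lemma Moi.compl {u : X ↪ X} (h : Moi u) : Nonempty (X ≃ ↥(Set.range u)ᶜ) := by
  obtain ⟨v, hv⟩ := h
  apply Function.Embedding.antisymm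
  · exact ⟨fun x => ⟨v x, fun ⟨y, hy⟩ => hv y x hy⟩, fun x y hxy => v.injective (by
      simpa using hxy)⟩
  · exact Function.Embedding.subtype _

lemma exists_conj {u v : X ↪ X} (hu : Moi u) (hv : Moi v) :
    ∃ c : Perm X, ∀ x, c (u x) = v x := by
  classical
  obtain ⟨e1⟩ := hu.compl
  obtain ⟨e2⟩ := hv.compl
  let f1 : X ≃ Set.range u := Equiv.ofInjective u u.injective
  let f2 : X ≃ Set.range v := Equiv.ofInjective v v.injective
  let g1 : X ⊕ X ≃ X := (Equiv.sumCongr f1 e1).trans (Equiv.Set.sumCompl (Set.range u))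
  let g2 : X ⊕ X ≃ X := (Equiv.sumCongr f2 e2).trans (Equiv.Set.sumCompl (Set.range v))
  have h1 : ∀ x, g1 (Sum.inl x) = u x := by intro x; simp [g1, f1]
  have h2 : ∀ x, g2 (Sum.inl x) = v x := by intro x; simp [g2, f2]
  refine ⟨g1.symm.trans g2, fun x => ?_⟩
  rw [← h1 x, Equiv.trans_apply, Equiv.symm_apply_apply, h2]

lemma pinv_apply (a : Perm X) (y : X) : a⁻¹ (a y) = y := a.symm_apply_apply y

lemma papply_inv (a : Perm X) (y : X) : a (a⁻¹ y) = y := a.apply_symm_apply y

lemma exists_emb (f : X → X) (hf : Injective f) : ∃ u : X ↪ X, ∀ y, u y = f y :=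
  ⟨⟨f, hf⟩, fun _ => rfl⟩

/-- length functions -/
structure IsLen (l : Perm X → ℕ) : Prop where
  mul : ∀ a b, l (a * b) ≤ l a + l b
  inv : ∀ a, l a⁻¹ = l a

lemma IsLen.conj {l : Perm X → ℕ} (hl : IsLen l) (c a : Perm X) :
    l (c * a * c⁻¹) ≤ l a + 2 * l c := by
  have h1 := hl.mul (c * a) c⁻¹
  have h2 := hl.mul c a
  have h3 := hl.inv c
  omega

/-- the permutations living on the range of `u` have bounded length -/
def Good (l : Perm X → ℕ) (u : X ↪ X) : Prop := ∃ N, ∀ τ : Perm X, l (τ.viaEmbedding u) ≤ N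

lemma viaEmbedding_conj {u v : X ↪ X} (c : Perm X) (hc : ∀ x, c (u x) = v x) (τ : Perm X) :
    τ.viaEmbedding v = c * τ.viaEmbedding u * c⁻¹ := by
  ext z
  by_cases hz : z ∈ Set.range v
  · obtain ⟨x, rfl⟩ := hz
    have h1 : c⁻¹ (v x) = u x := by rw [← hc]; simp
    rw [Perm.viaEmbedding_apply, Perm.mul_apply, Perm.mul_apply, h1, Perm.viaEmbedding_apply, hc]
  · have h1 : c⁻¹ z ∉ Set.range u := by
      rintro ⟨x, hx⟩
      apply hz
      exact ⟨x, by rw [← hc, hx]; simp⟩
    rw [Perm.viaEmbedding_apply_of_notMem _ _ _ hz, Perm.mul_apply, Perm.mul_apply,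
      Perm.viaEmbedding_apply_of_notMem _ _ _ h1]
    simp

lemma Good.transfer {l : Perm X → ℕ} (hl : IsLen l) {u v : X ↪ X} (hu : Moi u) (hv : Moi v)
    (h : Good l u) : Good l v := by
  obtain ⟨N, hN⟩ := h
  obtain ⟨c, hc⟩ := exists_conj hu hv
  refine ⟨N + 2 * l c, fun τ => ?_⟩
  rw [viaEmbedding_conj c hc]
  have := hl.conj c (τ.viaEmbedding u)
  have := hN τ
  omega

/-- every permutation of the range of `u` is induced by an element of bounded length -/
def Full (l : Perm X → ℕ) (u : X ↪ X) : Prop :=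
  ∃ N, ∀ π : Perm X, ∃ a : Perm X, l a ≤ N ∧ ∀ y, a (u y) = u (π y)

lemma Full.transfer {l : Perm X → ℕ} (hl : IsLen l) {u v : X ↪ X} (hu : Moi u) (hv : Moi v)
    (h : Full l u) : Full l v := by
  obtain ⟨N, hN⟩ := h
  obtain ⟨c, hc⟩ := exists_conj hu hv
  refine ⟨N + 2 * l c, fun π => ?_⟩
  obtain ⟨a, ha, hau⟩ := hN π
  refine ⟨c * a * c⁻¹, ?_, fun y => ?_⟩
  · have := hl.conj c a
    omega
  · rw [← hc, Perm.mul_apply, Perm.mul_apply, pinv_apply, hau, hc]

variable [Infinite X]

lemma exists_prod_equiv (I : Type) [Countable I] [Nonempty I] : Nonempty (I × X ≃ X) := by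
  rw [← Cardinal.eq, Cardinal.mk_prod, Cardinal.lift_id, Cardinal.lift_id]
  apply Cardinal.mul_eq_right (Cardinal.aleph0_le_mk X)
  · exact (Cardinal.mk_le_aleph0).trans (Cardinal.aleph0_le_mk X)
  · exact Cardinal.mk_ne_zero I

lemma exists_sum_equiv : Nonempty (X ⊕ X ≃ X) := by
  rw [← Cardinal.eq, Cardinal.mk_sum, Cardinal.lift_id]
  exact Cardinal.add_eq_self (Cardinal.aleph0_le_mk X)

/-- some moiety is full -/
lemma exists_full (l : Perm X → ℕ) : ∃ u : X ↪ X, Moi u ∧ Full l u := by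
  obtain ⟨e⟩ := exists_prod_equiv (X := X) ℕ
  have hu : ∀ n : ℕ, ∃ u : X ↪ X, ∀ y, u y = e (n, y) :=
    fun n => exists_emb _ (fun a b hab => by simpa using hab)
  choose u hu using hu
  have hM : ∀ n, Moi (u n) := by
    intro n
    refine ⟨u (n + 1), fun x y h => ?_⟩
    rw [hu, hu] at h
    have := e.injective h
    simp at this
  by_contra hcon
  push Not at hcon
  have h1 : ∀ n, ∃ π : Perm X, ∀ a : Perm X, l a ≤ n → ∃ y, a (u n y) ≠ u n (π y) := by
    intro n
    have h2 := hcon (u n) (hM n)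
    unfold Full at h2
    push Not at h2
    exact h2 n
  choose π hπ using h1
  obtain ⟨g, hg⟩ : ∃ g : Perm X, ∀ n y, g (e (n, y)) = e (n, π n y) :=
    ⟨e.symm.trans ((Equiv.prodShear (Equiv.refl ℕ) π).trans e), fun n y => by simp⟩
  obtain ⟨y, hy⟩ := hπ (l g) g le_rfl
  apply hy
  rw [hu, hg, hu]

lemma exists_good (l : Perm X → ℕ) (hl : IsLen l) : ∃ u : X ↪ X, Moi u ∧ Good l u := by
  obtain ⟨u0, hu0, hfull⟩ := exists_full l
  obtain ⟨s2⟩ := exists_sum_equiv (X := X)
  obtain ⟨e⟩ : Nonempty ((X ⊕ X) ⊕ X ≃ X) := ⟨(Equiv.sumCongr s2 (Equiv.refl X)).trans s2⟩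
  obtain ⟨uE, huE⟩ := exists_emb (fun y : X => e (Sum.inl (s2.symm y)))
    (fun a b hab => by simpa using hab)
  have hE : Moi uE := by
    obtain ⟨v, hv⟩ := exists_emb (fun y : X => e (Sum.inr y)) (fun a b hab => by simpa using hab)
    refine ⟨v, fun x y h => ?_⟩
    rw [huE, hv] at h
    have := e.injective h
    simp at this
  obtain ⟨N, hN⟩ := hfull.transfer hl hu0 hE
  have hN' : ∀ π : Perm (X ⊕ X), ∃ a : Perm X, l a ≤ N ∧
      ∀ z, a (e (Sum.inl z)) = e (Sum.inl (π z)) := by
    intro π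
    obtain ⟨a, ha, hau⟩ := hN (s2.symm.trans (π.trans s2))
    refine ⟨a, ha, fun z => ?_⟩
    have := hau (s2 z)
    rw [huE, huE] at this
    simpa using this
  -- the swap of the second and the third part
  obtain ⟨x, hx1, hx2, hx3⟩ : ∃ x : Perm X,
      (∀ y, x (e (Sum.inl (Sum.inl y))) = e (Sum.inl (Sum.inl y))) ∧
      (∀ y, x (e (Sum.inl (Sum.inr y))) = e (Sum.inr y)) ∧
      (∀ y, x (e (Sum.inr y)) = e (Sum.inl (Sum.inr y))) :=
    ⟨e.symm.trans (((Equiv.sumAssoc X X X).trans ((Equiv.sumCongr (Equiv.refl X)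
      (Equiv.sumComm X X)).trans (Equiv.sumAssoc X X X).symm)).trans e),
      fun y => by simp, fun y => by simp, fun y => by simp⟩
  have hxi1 : ∀ y, x⁻¹ (e (Sum.inl (Sum.inl y))) = e (Sum.inl (Sum.inl y)) := by
    intro y; rw [Perm.inv_eq_iff_eq, hx1]
  have hxi2 : ∀ y, x⁻¹ (e (Sum.inl (Sum.inr y))) = e (Sum.inr y) := by
    intro y; rw [Perm.inv_eq_iff_eq, hx3]
  have hxi3 : ∀ y, x⁻¹ (e (Sum.inr y)) = e (Sum.inl (Sum.inr y)) := by
    intro y; rw [Perm.inv_eq_iff_eq, hx2]
  obtain ⟨uA, huA⟩ := exists_emb (fun y : X => e (Sum.inl (Sum.inl y)))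
    (fun a b hab => by simpa using hab)
  -- commutators are bounded
  have hcomm : ∀ π σ : Perm X, l ((π * σ * π⁻¹ * σ⁻¹).viaEmbedding uA) ≤ 4 * N + 4 * l x := by
    intro π σ
    obtain ⟨a, ha, haE⟩ := hN' (Equiv.sumCongr π (Equiv.refl X))
    obtain ⟨b, hb, hbE⟩ := hN' (Equiv.sumCongr σ (Equiv.refl X))
    have ha1 : ∀ y, a (e (Sum.inl (Sum.inl y))) = e (Sum.inl (Sum.inl (π y))) := by
      intro y; simpa using haE (Sum.inl y)
    have ha2 : ∀ y, a (e (Sum.inl (Sum.inr y))) = e (Sum.inl (Sum.inr y)) := by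
      intro y; simpa using haE (Sum.inr y)
    obtain ⟨b', hb'⟩ : ∃ b' : Perm X, b' = x * b * x⁻¹ := ⟨_, rfl⟩
    have hb1 : ∀ y, b' (e (Sum.inl (Sum.inl y))) = e (Sum.inl (Sum.inl (σ y))) := by
      intro y
      have := hbE (Sum.inl y)
      simp only [Equiv.sumCongr_apply, Sum.map_inl] at this
      rw [hb', Perm.mul_apply, Perm.mul_apply, hxi1, this, hx1]
    have hb3 : ∀ y, b' (e (Sum.inr y)) = e (Sum.inr y) := by
      intro y
      have := hbE (Sum.inr y)
      simp only [Equiv.sumCongr_apply, Sum.map_inr, Equiv.coe_refl, id] at this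
      rw [hb', Perm.mul_apply, Perm.mul_apply, hxi3, this, hx2]
    have hlb : l b' ≤ l b + 2 * l x := by rw [hb']; exact hl.conj x b
    have ha3 : ∀ y, ∃ y', a (e (Sum.inr y)) = e (Sum.inr y') := by
      intro y
      obtain ⟨z, hz⟩ := e.surjective (a (e (Sum.inr y)))
      rcases z with (z | z) | z
      · exfalso
        have h1 := ha1 (π⁻¹ z)
        rw [papply_inv, hz] at h1
        have := e.injective (a.injective h1)
        simp at this
      · exfalso
        have h1 := ha2 z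
        nth_rewrite 2 [hz] at h1
        have := e.injective (a.injective h1)
        simp at this
      · exact ⟨z, hz.symm⟩
    have hb2 : ∀ y, ∃ y', b' (e (Sum.inl (Sum.inr y))) = e (Sum.inl (Sum.inr y')) := by
      intro y
      obtain ⟨z, hz⟩ := e.surjective (b' (e (Sum.inl (Sum.inr y))))
      rcases z with (z | z) | z
      · exfalso
        have h1 := hb1 (σ⁻¹ z)
        rw [papply_inv, hz] at h1
        have := e.injective (b'.injective h1)
        simp at this
      · exact ⟨z, hz.symm⟩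
      · exfalso
        have h1 := hb3 z
        nth_rewrite 2 [hz] at h1
        have := e.injective (b'.injective h1)
        simp at this
    obtain ⟨w, hw⟩ : ∃ w : Perm X, w = (π * σ * π⁻¹ * σ⁻¹).viaEmbedding uA := ⟨_, rfl⟩
    have hw1 : ∀ y, w (e (Sum.inl (Sum.inl y))) = e (Sum.inl (Sum.inl ((π * σ * π⁻¹ * σ⁻¹) y))) := by
      intro y
      rw [hw, ← huA, Perm.viaEmbedding_apply, huA]
    have hw2 : ∀ y, w (e (Sum.inl (Sum.inr y))) = e (Sum.inl (Sum.inr y)) := by
      intro y
      rw [hw]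
      apply Perm.viaEmbedding_apply_of_notMem
      rintro ⟨t, ht⟩
      rw [huA] at ht
      have := e.injective ht
      simp at this
    have hw3 : ∀ y, w (e (Sum.inr y)) = e (Sum.inr y) := by
      intro y
      rw [hw]
      apply Perm.viaEmbedding_apply_of_notMem
      rintro ⟨t, ht⟩
      rw [huA] at ht
      have := e.injective ht
      simp at this
    have heq : a * b' = w * b' * a := by
      ext z
      obtain ⟨z, rfl⟩ := e.surjective z
      rcases z with (z | z) | z
      · rw [Perm.mul_apply, Perm.mul_apply, Perm.mul_apply, hb1, ha1, ha1, hb1, hw1]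
        simp
      · obtain ⟨z', hz'⟩ := hb2 z
        rw [Perm.mul_apply, Perm.mul_apply, Perm.mul_apply, hz', ha2, ha2, hz', hw2]
      · obtain ⟨z', hz'⟩ := ha3 z
        rw [Perm.mul_apply, Perm.mul_apply, Perm.mul_apply, hb3, hz', hb3, hw3]
    have hw' : w = a * b' * a⁻¹ * b'⁻¹ := by
      rw [heq]; group
    rw [← hw, hw']
    have e1 := hl.mul (a * b' * a⁻¹) b'⁻¹
    have e2 := hl.mul (a * b') a⁻¹
    have e3 := hl.mul a b'
    have e4 := hl.inv a
    have e5 := hl.inv b'
    omega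
  -- the swindle
  obtain ⟨f⟩ := exists_prod_equiv (X := X) ℤ
  obtain ⟨v0, hv0⟩ := exists_emb (fun y : X => f (0, y)) (fun a b hab => by simpa using hab)
  obtain ⟨v1, hv1⟩ := exists_emb (fun y : X => f (1, y)) (fun a b hab => by simpa using hab)
  refine ⟨v0.trans uA, ⟨v1.trans uA, fun a b hab => ?_⟩, 4 * N + 4 * l x, fun τ => ?_⟩
  · have h1 := uA.injective hab
    rw [hv0, hv1] at h1
    have := f.injective h1
    simp at this
  · obtain ⟨T, hT⟩ : ∃ T : Perm X, ∀ i y, T (f (i, y)) = f (i, (if 0 ≤ i then τ else 1) y) :=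
      ⟨f.symm.trans ((Equiv.prodShear (Equiv.refl ℤ)
        (fun i : ℤ => if 0 ≤ i then τ else 1)).trans f), fun i y => by simp⟩
    obtain ⟨s, hs⟩ : ∃ s : Perm X, ∀ i y, s (f (i, y)) = f (i + 1, y) :=
      ⟨f.symm.trans ((Equiv.prodCongr (Equiv.addRight (1:ℤ)) (Equiv.refl X)).trans f),
        fun i y => by simp⟩
    have h1 : (T * s * T⁻¹ * s⁻¹).viaEmbedding uA = τ.viaEmbedding (v0.trans uA) := by
      have h2 : T * s * T⁻¹ * s⁻¹ = τ.viaEmbedding v0 := by
        have h3 : T * s = τ.viaEmbedding v0 * s * T := by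
          ext z
          obtain ⟨⟨i, y⟩, rfl⟩ := f.surjective z
          rw [Perm.mul_apply, Perm.mul_apply, Perm.mul_apply, hs, hT, hT, hs]
          by_cases hi : i = -1
          · subst hi
            have h4 : τ.viaEmbedding v0 (v0 y) = v0 (τ y) := Perm.viaEmbedding_apply τ v0 y
            rw [hv0, hv0] at h4
            simpa using h4.symm
          · have hn : f (i + 1, (if 0 ≤ i then τ else 1) y) ∉ Set.range v0 := by
              rintro ⟨t, ht⟩
              rw [hv0] at ht
              have := f.injective ht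
              simp at this
              omega
            rw [Perm.viaEmbedding_apply_of_notMem _ _ _ hn]
            have : (0 ≤ i + 1) ↔ (0 ≤ i) := by omega
            simp [this]
        rw [h3]; group
      rw [h2]
      ext z
      by_cases hz : z ∈ Set.range uA
      · obtain ⟨t, rfl⟩ := hz
        rw [Perm.viaEmbedding_apply]
        by_cases ht : t ∈ Set.range v0
        · obtain ⟨r, rfl⟩ := ht
          have h5 : τ.viaEmbedding (v0.trans uA) ((v0.trans uA) r) = (v0.trans uA) (τ r) :=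
            Perm.viaEmbedding_apply τ _ r
          rw [Perm.viaEmbedding_apply]
          exact h5.symm
        · rw [Perm.viaEmbedding_apply_of_notMem _ _ _ ht, Perm.viaEmbedding_apply_of_notMem]
          rintro ⟨r, hr⟩
          exact ht ⟨r, uA.injective hr⟩
      · rw [Perm.viaEmbedding_apply_of_notMem _ _ _ hz, Perm.viaEmbedding_apply_of_notMem]
        rintro ⟨r, hr⟩
        exact hz ⟨v0 r, hr⟩
    rw [← h1]
    exact hcomm T s

lemma all_good (l : Perm X → ℕ) (hl : IsLen l) {v : X ↪ X} (hv : Moi v) : Good l v := by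
  obtain ⟨u, hu, hg⟩ := exists_good l hl
  exact hg.transfer hl hu hv

/-- one of two sets covering `X` contains an injective image of `X` -/
lemma exists_inj_of_cover (A B : Set X) (h : ∀ x, x ∈ A ∨ x ∈ B) :
    (∃ w : X ↪ X, ∀ x, w x ∈ A) ∨ (∃ w : X ↪ X, ∀ x, w x ∈ B) := by
  have hle : Cardinal.mk X ≤ Cardinal.mk A + Cardinal.mk B := by
    calc Cardinal.mk X = Cardinal.mk (Set.univ : Set X) := Cardinal.mk_univ.symm
    _ = Cardinal.mk ↥(A ∪ B) := by
        congr 2
        ext x; simpa using h x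
    _ ≤ _ := Cardinal.mk_union_le A B
  have hinf := Cardinal.aleph0_le_mk X
  by_cases hA : Cardinal.mk X ≤ Cardinal.mk A
  · left
    obtain ⟨f⟩ := Cardinal.le_def X A |>.1 hA
    exact ⟨f.trans (Function.Embedding.subtype _), fun x => (f x).2⟩
  · right
    have hB : Cardinal.mk X ≤ Cardinal.mk B := by
      by_contra hB
      exact absurd hle (not_le.2 (Cardinal.add_lt_of_lt hinf (not_le.1 hA) (not_le.1 hB)))
    obtain ⟨f⟩ := Cardinal.le_def X B |>.1 hB
    exact ⟨f.trans (Function.Embedding.subtype _), fun x => (f x).2⟩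

theorem bounded (l : Perm X → ℕ) (hl : IsLen l) : ∃ N, ∀ g, l g ≤ N := by
  obtain ⟨e⟩ := exists_sum_equiv (X := X)
  obtain ⟨uL, huL⟩ := exists_emb (fun y : X => e (Sum.inl y)) (fun a b hab => by simpa using hab)
  obtain ⟨uR, huR⟩ := exists_emb (fun y : X => e (Sum.inr y)) (fun a b hab => by simpa using hab)
  have hLR : ∀ x y, uL x ≠ uR y := by
    intro x y h
    rw [huL, huR] at h
    have := e.injective h
    simp at this
  have hML : Moi uL := ⟨uR, hLR⟩
  obtain ⟨sw, hsw⟩ : ∃ sw : Perm X, ∀ y, sw (uR y) = uL y := by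
    refine ⟨e.symm.trans ((Equiv.sumComm X X).trans e), fun y => ?_⟩
    rw [huL, huR]; simp
  -- `d = uL ∘ uL` is the fixed small moiety; `v` enumerates its complement
  have hMd : Moi (uL.trans uL) := ⟨uR, fun x y => hLR (uL x) y⟩
  obtain ⟨ev⟩ := hMd.compl
  obtain ⟨v, hv⟩ : ∃ v : X ↪ X, ∀ y, v y = (ev y : X) :=
    exists_emb _ (fun a b hab => by simpa [Subtype.coe_inj] using hab)
  have hvd : ∀ x y, v x ≠ uL (uL y) := by
    intro x y h
    rw [hv] at h
    exact (ev x).2 ⟨y, h.symm⟩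
  have hMv : Moi v := ⟨uL.trans uL, fun x y => hvd x y⟩
  obtain ⟨NL, hNL⟩ := all_good l hl hML
  obtain ⟨Nv, hNv⟩ := all_good l hl hMv
  refine ⟨l sw + 2 * NL + Nv, fun g => ?_⟩
  -- the main step for a permutation moving a large part of the left half into the left half
  have main : ∀ g : Perm X, (∃ w : X ↪ X, ∀ x, g (uL (w x)) ∈ Set.range uL) →
      l g ≤ 2 * NL + Nv := by
    intro g ⟨w, hw⟩
    choose w' hw' using hw
    have hw'inj : Injective w' := by
      intro a b hab
      have h1 : g (uL (w a)) = g (uL (w b)) := by rw [← hw', ← hw', hab]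
      exact w.injective (uL.injective (g.injective h1))
    obtain ⟨w2, hw2⟩ := exists_emb w' hw'inj
    have hm1 : Moi (uL.trans w) := ⟨uR.trans w, fun x y h => hLR x y (w.injective h)⟩
    have hm2 : Moi (uL.trans w2) := ⟨uR.trans w2, fun x y h => hLR x y (w2.injective h)⟩
    obtain ⟨h1, hh1⟩ := exists_conj hML hm1
    obtain ⟨h2, hh2⟩ := exists_conj hm2 hML
    set H1 := h1.viaEmbedding uL with hH1
    set H2 := h2.viaEmbedding uL with hH2
    set g' := H2 * g * H1 with hg'
    have hfix : ∀ y, g' (uL (uL y)) = uL (uL y) := by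
      intro y
      have e1 : H1 (uL (uL y)) = uL (w (uL y)) := by
        rw [hH1, Perm.viaEmbedding_apply, hh1]; rfl
      have e2 : g (uL (w (uL y))) = uL (w2 (uL y)) := by rw [← hw', hw2]
      have e3 : H2 (uL (w2 (uL y))) = uL (uL y) := by
        rw [hH2, Perm.viaEmbedding_apply]
        exact congrArg uL (hh2 y)
      rw [hg', Perm.mul_apply, Perm.mul_apply, e1, e2, e3]
    have hgv : ∃ τ : Perm X, g' = τ.viaEmbedding v := by
      have hmem : ∀ z, z ∈ (Set.range (uL.trans uL))ᶜ ↔ g' z ∈ (Set.range (uL.trans uL))ᶜ := by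
        intro z
        rw [Set.mem_compl_iff, Set.mem_compl_iff, not_iff_not]
        constructor
        · rintro ⟨y, rfl⟩
          exact ⟨y, (hfix y).symm⟩
        · rintro ⟨y, hy⟩
          refine ⟨y, ?_⟩
          apply g'.injective
          rw [← hy]
          exact hfix y
      let τ' : Perm ↥(Set.range (uL.trans uL))ᶜ := g'.subtypePerm (fun z => (hmem z).symm)
      refine ⟨ev.trans (τ'.trans ev.symm), ?_⟩
      ext z
      by_cases hz : z ∈ Set.range v
      · obtain ⟨y, rfl⟩ := hz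
        rw [Perm.viaEmbedding_apply, hv, hv]
        simp [τ']
      · rw [Perm.viaEmbedding_apply_of_notMem _ _ _ hz]
        have hz' : z ∈ Set.range (uL.trans uL) := by
          by_contra hcon
          apply hz
          exact ⟨ev.symm ⟨z, hcon⟩, by rw [hv]; simp⟩
        obtain ⟨y, rfl⟩ := hz'
        exact hfix y
    obtain ⟨τ, hτ⟩ := hgv
    have e1 : g = H2⁻¹ * g' * H1⁻¹ := by rw [hg']; group
    have e2 := hl.mul (H2⁻¹ * g') H1⁻¹
    have e3 := hl.mul H2⁻¹ g'
    have e4 := hl.inv H1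
    have e5 := hl.inv H2
    have e6 := hNL h1
    have e7 := hNL h2
    have e8 := hNv τ
    rw [← hτ] at e8
    rw [← hH1] at e6
    rw [← hH2] at e7
    rw [← e1] at e2
    omega
  rcases exists_inj_of_cover {x | g (uL x) ∈ Set.range uL} {x | g (uL x) ∈ Set.range uR}
    (by
      intro x
      obtain ⟨z, hz⟩ := e.surjective (g (uL x))
      rcases z with z | z
      · left; exact ⟨z, by rw [huL, hz]⟩
      · right; exact ⟨z, by rw [huR, hz]⟩) with ⟨w, hw⟩ | ⟨w, hw⟩
  · have := main g ⟨w, hw⟩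
    omega
  · have h1 := main (sw * g) ⟨w, fun x => by
      obtain ⟨y, hy⟩ := hw x
      exact ⟨y, by rw [Perm.mul_apply, ← hy, hsw]⟩⟩
    have h2 := hl.mul sw⁻¹ (sw * g)
    have h3 : sw⁻¹ * (sw * g) = g := by group
    have h4 := hl.inv sw
    rw [h3] at h2
    omega

/-- Bergman: every length function on the symmetric group of an infinite type is bounded. -/
theorem symBounded (X : Type) [Infinite X] (l : Equiv.Perm X → ℕ)
    (hmul : ∀ a b, l (a * b) ≤ l a + l b) (hinv : ∀ a, l a⁻¹ = l a) : ∃ N, ∀ a, l a ≤ N :=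
  bounded l ⟨hmul, hinv⟩

end Pool.Agent.Helper7.BergmanSym
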