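import Mathlib
import Pool.Agent.Helper7.Density.Core
import Pool.Agent.Helper90.DensityAbs

set_option autoImplicit false
set_option maxHeartbeats 4000000

/-!
The density lemma at one scale.
-/

namespace Pool.Agent.Helper7.Density

open Finset Pool.Agent.Helper8

lemma abs_log_le {X : ℝ} (h : |X - 1| ≤ 1 / 2) : |Real.log X| ≤ 2 * |X - 1| := by
  have h1 := abs_le.1 h
  have hX : 0 < X := by linarith [h1.1]
  rcases le_or_gt 1 X with h2 | h2
  · have h3 := Real.log_le_sub_one_of_pos hX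
    rw [abs_of_nonneg (Real.log_nonneg h2), abs_of_nonneg (by linarith)]
    linarith
  · have h3 := Real.one_sub_inv_le_log_of_pos hX
    have h4 : Real.log X ≤ 0 := Real.log_nonpos hX.le h2.le
    rw [abs_of_nonpos h4, abs_of_nonpos (by linarith)]
    have h5 : X⁻¹ - 1 ≤ 2 * (1 - X) := by
      have : X⁻¹ - 1 = (1 - X) / X := by field_simp
      rw [this, div_le_iff₀ hX]
      nlinarith [h1.1]
    linarith

theorem densityStmt (hA : ThmA 2 3) (hB : ThmB) : DensityStmt := by
  obtain ⟨CA, hCA, hA⟩ := hA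
  obtain ⟨CB, hCB, hB⟩ := hB
  set C0 := max CA CB with hC0
  have hC01 : 1 ≤ C0 := hCA.trans (le_max_left _ _)
  refine ⟨12 * 16 * (384 * C0 ^ 4), ?_, ?_⟩
  · have : 1 ≤ C0 ^ 4 := one_le_pow₀ hC01
    linarith
  intro w hw r1 r2 f1 f2 J B r v h hr hv hh hr1 hv1 hJ hrv hB16 hvB s hs
  have hl2 := log_two_gt
  have hl3 : Real.log 2 ≤ Real.log 3 := Real.log_le_log (by norm_num) (by norm_num)
  set b := Real.log B with hb
  have hB0 : 0 < B := by linarith
  have hb2 : 2.77 < b := by
    have h1 : Real.log 16 ≤ b := Real.log_le_log (by norm_num) hB16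
    have h2 : (16:ℝ) = 2 ^ 4 := by norm_num
    rw [h2, Real.log_pow] at h1
    push_cast at h1; linarith
  have hb0 : 0 < b := by linarith
  set ε : ℝ := 1 / B ^ w with hε
  have hε0 : 0 < ε := by positivity
  have hε16 : ε ≤ 1 / 16 := by
    apply one_div_le_one_div_of_le (by norm_num)
    calc (16:ℝ) ≤ B := hB16
    _ = B ^ 1 := (pow_one B).symm
    _ ≤ B ^ w := pow_le_pow_right₀ (by linarith) (by omega)
  have hεexp : ε = Real.exp (-(w * b)) := by
    rw [hε, Real.exp_neg, hb, mul_comm (w:ℝ), Real.exp_mul, Real.exp_log hB0, Real.rpow_natCast,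
      one_div]
  -- the numbers `r v ^ c`
  have hv0 : 0 < v := by linarith
  have hr0 : 0 < r := by linarith
  have hrc : ∀ c ≤ J, 1 ≤ r * v ^ c ∧ r * v ^ c ≤ 3 := by
    intro c hc
    have h1 : 1 ≤ v ^ c := one_le_pow₀ hv1.le
    have h2 : v ^ c ≤ v ^ J := pow_le_pow_right₀ hv1.le hc
    constructor
    · nlinarith
    · nlinarith
  -- choose the approximations
  have hch : ∀ c ∈ s, ∃ (a : ℤ) (n : ℕ), B ≤ n ∧ (n : ℝ) < B ^ 2 ∧
      |r * v ^ c - (a : ℝ) / n| < 1 / (n : ℝ) ^ w := by
    intro c hc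
    obtain ⟨-, a, n, h1, h2, -, h3⟩ := hs c hc
    exact ⟨a, n, h1, h2, h3⟩
  choose! a n hn1 hn2 hn3 using hch
  have hn0 : ∀ c ∈ s, (16:ℝ) ≤ n c := fun c hc => hB16.trans (hn1 c hc)
  have hclose : ∀ c ∈ s, |r * v ^ c - (a c : ℝ) / n c| < ε := by
    intro c hc
    refine (hn3 c hc).trans_le ?_
    apply one_div_le_one_div_of_le (by positivity)
    exact pow_le_pow_left₀ hB0.le (hn1 c hc) w
  have hy_ge : ∀ c ∈ s, 15 / 16 ≤ (a c : ℝ) / n c ∧ (a c : ℝ) / n c ≤ 4 := by
    intro c hc
    have h1 := abs_lt.1 (hclose c hc)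
    have h2 := hrc c (hs c hc).1
    constructor <;> linarith [h1.1, h1.2, h2.1, h2.2]
  have ha_pos : ∀ c ∈ s, 0 < a c := by
    intro c hc
    have h1 : (0:ℝ) < (a c : ℝ) / n c := by linarith [(hy_ge c hc).1]
    have h2 : (0:ℝ) < n c := by linarith [hn0 c hc]
    have h3 : (0:ℝ) < a c := by
      rcases div_pos_iff.1 h1 with h | h
      · exact h.1
      · linarith [h.2]
    exact_mod_cast h3
  set M : ℕ := 4 + ∑ c ∈ s, ((a c).natAbs + n c) with hMdef
  have hM4 : 4 ≤ M := by omega
  have hMc : ∀ c ∈ s, (a c).natAbs + n c + 4 ≤ M := by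
    intro c hc
    have := Finset.single_le_sum (f := fun c => (a c).natAbs + n c) (fun _ _ => Nat.zero_le _) hc
    omega
  set yq : ℕ → ℚ := fun c => ((a c).natAbs : ℚ) / (n c : ℚ) with hyq
  set rq : ℚ := (2:ℚ) ^ r1 * (3:ℚ) ^ r2 with hrq
  set vq : ℚ := (2:ℚ) ^ f1 * (3:ℚ) ^ f2 with hvq
  have hrcast : (rq : ℝ) = r := by rw [hrq, hr]; push_cast; rfl
  have hvcast : (vq : ℝ) = v := by rw [hvq, hv]; push_cast; rfl
  have hSr : Sp M rq := Sp.two_three hM4 r1 r2
  have hSv : Sp M vq := Sp.two_three hM4 f1 f2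
  have hnpos : ∀ c ∈ s, 0 < n c := by
    intro c hc
    have := hn0 c hc
    have : (0:ℝ) < n c := by linarith
    exact_mod_cast this
  have hSa : ∀ c ∈ s, Sp M ((a c).natAbs : ℚ) := by
    intro c hc
    have := ha_pos c hc
    have := hMc c hc
    exact Sp.natCast (by omega) (by omega)
  have hSn : ∀ c ∈ s, Sp M (n c : ℚ) := by
    intro c hc
    have := hnpos c hc
    have := hMc c hc
    exact Sp.natCast (by omega) (by omega)
  have hSy : ∀ c ∈ s, Sp M (yq c) := by
    intro c hc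
    rw [hyq]
    simp only [div_eq_mul_inv]
    exact (hSa c hc).mul (hSn c hc).inv
  have hycast : ∀ c ∈ s, (yq c : ℝ) = (a c : ℝ) / n c := by
    intro c hc
    have h1 : (((a c).natAbs : ℤ) : ℝ) = (a c : ℝ) := by
      rw [Int.natAbs_of_nonneg (ha_pos c hc).le]
    rw [hyq]; push_cast
    rw [← h1]; simp
  set rv : VV M := vec M rq with hrv'
  set vv : VV M := vec M vq with hvv
  set yv : ℕ → VV M := fun c => vec M (yq c) with hyv
  set xv : ℕ → VV M := fun c => yv c - rv - (c:ℝ) • vv with hxv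
  have hrG : rv ∈ GG M := ⟨rq, hSr, rfl⟩
  have hvG : vv ∈ GG M := ⟨vq, hSv, rfl⟩
  have hyG : ∀ c ∈ s, yv c ∈ GG M := fun c hc => ⟨yq c, hSy c hc, rfl⟩
  have hnv : ‖vv‖ = h := by rw [hvv, hvq, norm_two_three hM4, hh]
  have hfv : ff M vv = Real.log v := by rw [hvv, ff_vec hSv, hvcast]
  have hfr : ff M rv = Real.log r := by rw [hrv', ff_vec hSr, hrcast]
  have hlamv : Real.log v = (f1:ℝ) * Real.log 2 + (f2:ℝ) * Real.log 3 := by
    rw [← hfv, hvv, hvq, ff_two_three hM4]
  have hlv0 : 0 < Real.log v := Real.log_pos hv1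
  have hh0 : 0 < h := by
    rw [← hnv, norm_pos_iff]
    intro h0
    rw [h0, map_zero] at hfv
    linarith
  -- logarithms of the `x_c`
  have hfx : ∀ c ∈ s, |ff M (xv c)| ≤ 2 * ε := by
    intro c hc
    have h2 := hrc c (hs c hc).1
    have hy := hy_ge c hc
    have e1 : ff M (xv c) = Real.log ((a c : ℝ) / n c / (r * v ^ c)) := by
      rw [Real.log_div (by linarith [hy.1]) (by linarith [h2.1]), Real.log_mul (by linarith)
        (by positivity), Real.log_pow, hxv]
      simp only [map_sub, map_smul, hfr, hfv, smul_eq_mul]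
      rw [hyv]
      simp only
      rw [ff_vec (hSy c hc), hycast c hc]
      ring
    rw [e1]
    have h3 : |(a c : ℝ) / n c / (r * v ^ c) - 1| ≤ ε := by
      have : (a c : ℝ) / n c / (r * v ^ c) - 1 = ((a c : ℝ) / n c - r * v ^ c) / (r * v ^ c) := by
        rw [sub_div, div_self (by linarith [h2.1])]
      rw [this, abs_div, div_le_iff₀ (by rw [abs_pos]; linarith [h2.1]), abs_sub_comm]
      have h4 := (hclose c hc).le
      have h5 : 1 ≤ |r * v ^ c| := h2.1.trans (le_abs_self _)
      nlinarith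
    exact (abs_log_le (h3.trans (by linarith))).trans (by linarith)
  have hny : ∀ c ∈ s, ‖yv c‖ ≤ 6 * b := by
    intro c hc
    have e : yv c = vec M ((a c).natAbs : ℚ) - vec M (n c : ℚ) :=
      vec_div M (hSa c hc).1.ne' (hSn c hc).1.ne'
    have h1 : ‖yv c‖ ≤ Real.log (a c).natAbs + Real.log (n c) := by
      rw [e]
      refine (norm_sub_le _ _).trans ?_
      rw [norm_vec (hSa c hc), norm_vec (hSn c hc)]
      simp [ht]
    have h2 : Real.log (n c) ≤ 2 * b := by
      rw [hb, ← Nat.cast_ofNat, ← Real.log_pow]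
      exact Real.log_le_log (by linarith [hn0 c hc]) (hn2 c hc).le
    have h3 : Real.log (a c).natAbs ≤ 4 * b := by
      have ha' : ((a c).natAbs : ℝ) = (a c : ℝ) := by
        have h1 : (((a c).natAbs : ℤ) : ℝ) = (a c : ℝ) := by
          rw [Int.natAbs_of_nonneg (ha_pos c hc).le]
        rw [← h1]; simp
      have h4 : ((a c).natAbs : ℝ) ≤ 4 * n c := by
        rw [ha']
        have := (hy_ge c hc).2
        rwa [div_le_iff₀ (by linarith [hn0 c hc])] at this
      have h5 : ((a c).natAbs : ℝ) ≤ B ^ 4 := by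
        have := (hn2 c hc).le
        have h6 : (256:ℝ) ≤ B ^ 2 := by nlinarith
        calc ((a c).natAbs : ℝ) ≤ 4 * B ^ 2 := by linarith
        _ ≤ B ^ 2 * B ^ 2 := by nlinarith
        _ = B ^ 4 := by ring
      have h0 : (0:ℝ) < (a c).natAbs := by rw [ha']; exact_mod_cast ha_pos c hc
      calc Real.log (a c).natAbs ≤ Real.log (B ^ 4) := Real.log_le_log h0 h5
      _ = 4 * b := by rw [Real.log_pow, hb]; norm_num
    linarith
  set X := (J:ℝ) * h / b with hX
  have hX0 : 0 ≤ X := by positivity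
  have hR1 : 1 ≤ RR C0 X := RR_one_le hC01 hX0
  have hwr : (104:ℝ) ≤ w := by exact_mod_cast hw
  have key := Pool.Agent.Helper90.density_abs (GG M) (ff M) GG_inj J hJ s
    (fun c hc => (hs c hc).1) rv vv hrG hvG yv xv hyG (fun c => rfl)
    ((w:ℝ) / 2 * b / h) (12 * b / h) (6 * b) (b / (3 * RR C0 X))
    (by positivity) (by positivity) (by positivity) (by positivity)
    (by
      -- h1
      intro c c' hc hc' hne
      set D : ℝ := (∑ i, (c i : ℝ)) - ∑ i, (c' i : ℝ) with hD
      set u : VV M := ∑ i, xv (c i) - ∑ i, xv (c' i) with hu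
      have hu0 : u ≠ 0 := sub_ne_zero.2 hne
      have hxG : ∀ c ∈ s, xv c ∈ GG M := by
        intro c hc
        apply AddSubgroup.sub_mem _ (AddSubgroup.sub_mem _ (hyG c hc) hrG)
        have : (c:ℝ) • vv = c • vv := by rw [Nat.cast_smul_eq_nsmul]
        rw [this]
        exact AddSubgroup.nsmul_mem _ hvG c
      have huG : u ∈ GG M := AddSubgroup.sub_mem _ (AddSubgroup.sum_mem _ (fun i _ => hxG _ (hc i)))
        (AddSubgroup.sum_mem _ (fun i _ => hxG _ (hc' i)))
      have hlow := GG_lower huG hu0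
      have hup : |ff M u| ≤ 16 * ε := by
        rw [hu, map_sub, map_sum, map_sum]
        calc |∑ i, ff M (xv (c i)) - ∑ i, ff M (xv (c' i))|
            ≤ |∑ i, ff M (xv (c i))| + |∑ i, ff M (xv (c' i))| := abs_sub _ _
        _ ≤ (∑ i, |ff M (xv (c i))|) + ∑ i, |ff M (xv (c' i))| :=
            add_le_add (Finset.abs_sum_le_sum_abs _ _) (Finset.abs_sum_le_sum_abs _ _)
        _ ≤ (∑ _i : Fin 4, 2 * ε) + ∑ _i : Fin 4, 2 * ε :=
            add_le_add (Finset.sum_le_sum fun i _ => hfx _ (hc i))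
              (Finset.sum_le_sum fun i _ => hfx _ (hc' i))
        _ = 16 * ε := by simp; ring
      have hueq : u = ∑ i, yv (c i) - ∑ i, yv (c' i) - D • vv := by
        rw [hu, hxv, hD]
        simp only [Finset.sum_sub_distrib, sub_smul, Finset.sum_smul, Finset.sum_const]
        abel
      have hun : ‖u‖ ≤ 48 * b + |D| * h := by
        rw [hueq]
        calc ‖∑ i, yv (c i) - ∑ i, yv (c' i) - D • vv‖
            ≤ ‖∑ i, yv (c i)‖ + ‖∑ i, yv (c' i)‖ + ‖D • vv‖ :=
              (norm_sub_le _ _).trans (add_le_add_left (norm_sub_le _ _) _)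
        _ ≤ (∑ _i : Fin 4, 6 * b) + (∑ _i : Fin 4, 6 * b) + |D| * h := by
              apply add_le_add
              · apply add_le_add
                · exact norm_sum_le_of_le _ (fun i _ => hny _ (hc i))
                · exact norm_sum_le_of_le _ (fun i _ => hny _ (hc' i))
              · rw [norm_smul, hnv, Real.norm_eq_abs]
        _ = 48 * b + |D| * h := by simp; ring
      have h16 : Real.log 16 ≤ b := Real.log_le_log (by norm_num) hB16
      have h1 : Real.exp (-‖u‖) ≤ Real.exp (Real.log 16 - w * b) := by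
        rw [sub_eq_add_neg, Real.exp_add, Real.exp_log (by norm_num), ← hεexp]
        exact hlow.trans hup
      rw [Real.exp_le_exp] at h1
      rw [div_le_iff₀ hh0]
      nlinarith)
    (by
      -- h2
      intro c hc c' hc' hxx
      have e : yv c - yv c' = ((c:ℝ) - c') • vv := by
        have h1 : yv c - rv - (c:ℝ) • vv = yv c' - rv - (c':ℝ) • vv := hxx
        rw [sub_smul]
        have h2 : yv c = yv c' - rv - (c':ℝ) • vv + (c:ℝ) • vv + rv := by
          rw [← h1]; abel
        rw [h2]; abel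
      have h1 : |(c:ℝ) - c'| * h = ‖yv c - yv c'‖ := by
        rw [e, norm_smul, hnv, Real.norm_eq_abs]
      have h2 : ‖yv c - yv c'‖ ≤ 12 * b := by
        refine (norm_sub_le _ _).trans ?_
        linarith [hny c hc, hny c' hc']
      rw [le_div_iff₀ hh0, h1]
      exact h2)
    hny
    (by
      -- h4
      intro c1 hc1 c2 hc2 c1' hc1' c2' hc2' hne
      set g : ℚ := yq c1 * yq c2 / (yq c1' * yq c2') with hg
      have hSg : Sp M g := by
        rw [hg, div_eq_mul_inv]
        exact ((hSy c1 hc1).mul (hSy c2 hc2)).mul ((hSy c1' hc1').mul (hSy c2' hc2')).inv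
      have hvecg : vec M g = (yv c1 + yv c2) - (yv c1' + yv c2') := by
        rw [hg, vec_div M (mul_ne_zero (hSy c1 hc1).1.ne' (hSy c2 hc2).1.ne')
          (mul_ne_zero (hSy c1' hc1').1.ne' (hSy c2' hc2').1.ne'),
          vec_mul M (hSy c1 hc1).1.ne' (hSy c2 hc2).1.ne',
          vec_mul M (hSy c1' hc1').1.ne' (hSy c2' hc2').1.ne']
      set D : ℤ := (c1:ℤ) + c2 - c1' - c2' with hD
      have hDr : (D:ℝ) = (c1:ℝ) + c2 - c1' - c2' := by rw [hD]; push_cast; ring
      have hdiff : (xv c1 + xv c2) - (xv c1' + xv c2') = vec M g - (D:ℝ) • vv := by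
        rw [hvecg, hDr, hxv]
        simp only [sub_smul, add_smul]
        abel
      have hdiff0 : vec M g - (D:ℝ) • vv ≠ 0 := by
        rw [← hdiff]; exact sub_ne_zero.2 hne
      have hgG : vec M g ∈ GG M := ⟨g, hSg, rfl⟩
      have hdG : vec M g - (D:ℝ) • vv ∈ GG M := by
        apply AddSubgroup.sub_mem _ hgG
        have : (D:ℝ) • vv = D • vv := by rw [Int.cast_smul_eq_zsmul]
        rw [this]
        exact AddSubgroup.zsmul_mem _ hvG D
      have hfd : ff M (vec M g - (D:ℝ) • vv) = Real.log g - D * Real.log v := by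
        rw [map_sub, map_smul, ff_vec hSg, hfv, smul_eq_mul]
      have hne' : Real.log g ≠ D * Real.log v := by
        intro h0
        apply hdiff0
        apply GG_inj _ hdG
        rw [hfd, h0, sub_self]
      have hcl : |Real.log g - D * Real.log v| ≤ 8 * (1 / B ^ w) := by
        rw [← hfd, ← hdiff, map_sub, map_add, map_add]
        have h1 := abs_le.1 (hfx c1 hc1)
        have h2 := abs_le.1 (hfx c2 hc2)
        have h3 := abs_le.1 (hfx c1' hc1')
        have h4 := abs_le.1 (hfx c2' hc2')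
        rw [abs_le]
        constructor <;> linarith [h1.1, h1.2, h2.1, h2.2, h3.1, h3.2, h4.1, h4.2]
      have hDJ : |(D:ℝ)| ≤ 2 * J := by
        have g1 : (c1:ℝ) ≤ J := by exact_mod_cast (hs c1 hc1).1
        have g2 : (c2:ℝ) ≤ J := by exact_mod_cast (hs c2 hc2).1
        have g3 : (c1':ℝ) ≤ J := by exact_mod_cast (hs c1' hc1').1
        have g4 : (c2':ℝ) ≤ J := by exact_mod_cast (hs c2' hc2').1
        have p1 : (0:ℝ) ≤ c1 := Nat.cast_nonneg _
        have p2 : (0:ℝ) ≤ c2 := Nat.cast_nonneg _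
        have p3 : (0:ℝ) ≤ c1' := Nat.cast_nonneg _
        have p4 : (0:ℝ) ≤ c2' := Nat.cast_nonneg _
        rw [hDr, abs_le]
        constructor <;> linarith
      have hng : ‖vec M g‖ ≤ 24 * b := by
        rw [hvecg]
        calc ‖(yv c1 + yv c2) - (yv c1' + yv c2')‖ ≤ ‖yv c1 + yv c2‖ + ‖yv c1' + yv c2'‖ :=
              norm_sub_le _ _
        _ ≤ (‖yv c1‖ + ‖yv c2‖) + (‖yv c1'‖ + ‖yv c2'‖) :=
              add_le_add (norm_add_le _ _) (norm_add_le _ _)
        _ ≤ 24 * b := by linarith [hny c1 hc1, hny c2 hc2, hny c1' hc1', hny c2' hc2']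
      have hcore := core hCA hCB hA hB hM4 hSg hw hB16 hlamv hh hvB hDJ hcl hne'
        (by rw [← norm_vec hSg]; exact hng)
      rw [← hvecg, norm_vec hSg, div_le_iff₀ (by positivity)]
      calc b ≤ 3 * RR C0 X * ht g := hcore
      _ = ht g * (3 * RR C0 X) := by ring)
  -- final estimate
  have hSS : SS w J B h = 4 * J / max 1 ((w:ℝ) / 2 * b / h) + 1 := rfl
  rw [← hSS] at key
  have hSS0 : 0 ≤ SS w J B h := by rw [hSS]; positivity
  have harg : 8 * (6 * b) / (b / (3 * RR C0 X)) = 144 * RR C0 X := by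
    field_simp; norm_num
  rw [harg] at key
  have hlogR := log_RR (x := X) hC01 hX0
  set S := SS w J B h with hSdef
  set ell := Real.log (X + 2) with hell
  set K := 384 * C0 ^ 4 with hK
  have hK1 : 1 ≤ K := by
    have : 1 ≤ C0 ^ 4 := one_le_pow₀ hC01
    rw [hK]; linarith
  have hmax : max (Real.sqrt S) (16 * S * (Real.log (1 + 144 * RR C0 X)) ^ 2 / (Real.log S) ^ 2)
      ≤ 16 * K * (Real.sqrt S + S * Real.sqrt ell / (Real.log S) ^ 2) := by
    have h1 : 0 ≤ S * Real.sqrt ell / (Real.log S) ^ 2 := by positivity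
    have h0 : 0 ≤ Real.sqrt S := Real.sqrt_nonneg _
    apply max_le
    · nlinarith
    · have h2 : 16 * S * (Real.log (1 + 144 * RR C0 X)) ^ 2 / (Real.log S) ^ 2
          ≤ 16 * S * (K * Real.sqrt ell) / (Real.log S) ^ 2 := by
        gcongr
      have h3 : 16 * S * (K * Real.sqrt ell) / (Real.log S) ^ 2
          = 16 * K * (S * Real.sqrt ell / (Real.log S) ^ 2) := by ring
      rw [h3] at h2
      refine h2.trans ?_
      have : 0 ≤ 16 * K * Real.sqrt S := by positivity
      linarith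
  calc (s.card : ℝ) ≤ (12 * b / h + 1) * max (Real.sqrt S)
        (16 * S * (Real.log (1 + 144 * RR C0 X)) ^ 2 / (Real.log S) ^ 2) := key
  _ ≤ (12 * (b / h + 1)) * (16 * K * (Real.sqrt S + S * Real.sqrt ell / (Real.log S) ^ 2)) := by
      apply mul_le_mul _ hmax _ (by positivity)
      · have : 12 * b / h = 12 * (b / h) := by ring
        rw [this]; linarith
      · exact le_max_of_le_left (Real.sqrt_nonneg _)
  _ = _ := by ring

end Pool.Agent.Helper7.Density
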